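import Pool.Agent.L7h66.UA.Stm

/-!
Project UA (helper66), part `CTH`: the number of the theories.
-/

set_option autoImplicit false

namespace Pool.Agent.L7h29.UA

open Set Function MeasureTheory
open Pool.Agent.L7h66.UA
open Pool.Agent.L7h71.UN (CellR)
open Pool.Agent.H533R2.VO (RS RIso)

section liso

variable {a : ℕ → ℕ} {n : ℕ} {x y z : RS a}

lemma liso_trans {σ τ : Equiv.Perm ℕ} (h : LIso n x y σ) (h' : LIso n y z τ) : LIso n x z (τ * σ) := by
  intro i hi v
  have e : (⇑(τ * σ) ∘ v) = τ ∘ (σ ∘ v) := rfl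
  rw [e, h' i hi, h i hi]

lemma liso_symm {σ : Equiv.Perm ℕ} (h : LIso n x y σ) : LIso n y x σ⁻¹ := by
  intro i hi v
  have h1 := h i hi (⇑σ⁻¹ ∘ v)
  rw [← h1]
  congr 1
  funext j
  simp

lemma liso_of_riso (h : RIso x y) : ∃ σ, LIso n x y σ := by
  obtain ⟨σ, h⟩ := h
  exact ⟨σ, fun i _ v => h i v⟩

end liso

/-- the space of the codes -/
abbrev Om (a : ℕ → ℕ) : Type := RS a × (ℕ → ℕ → ℕ) × (ℕ → ℕ → ℕ) × (ℕ → ℕ)

/-- the codes -/
def Yset {a : ℕ → ℕ} (B : Set (RS a)) (R : ℕ → ℕ → RS a) (M : ℕ → ℕ → Prop) : Set (Om a) :=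
  {p | p.1 ∈ B ∧ (∀ n m k, p.2.2.1 n m = k → p.2.1 n k = m) ∧ (∀ n m k, p.2.1 n m = k → p.2.2.1 n k = m) ∧
    (∀ n i, i < n → ∀ (v u : Fin (a i) → ℕ) (k : ℕ), (∀ t, p.2.1 n (v t) = u t) → p.2.2.2 n = k →
      p.1 i u = R n k i v) ∧ ∀ n k, p.2.2.2 n = k → M n k}

lemma meas_Yset {a : ℕ → ℕ} {B : Set (RS a)} (hB : MeasurableSet B) (R : ℕ → ℕ → RS a)
    (M : ℕ → ℕ → Prop) : MeasurableSet (Yset B R M) := by
  have e1 : ∀ n m k, MeasurableSet {p : Om a | p.2.1 n m = k} := fun n m k =>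
    (measurableSet_singleton k).preimage
      ((measurable_pi_apply m).comp ((measurable_pi_apply n).comp (measurable_fst.comp measurable_snd)))
  have e2 : ∀ n m k, MeasurableSet {p : Om a | p.2.2.1 n m = k} := fun n m k =>
    (measurableSet_singleton k).preimage
      ((measurable_pi_apply m).comp ((measurable_pi_apply n).comp
        (measurable_fst.comp (measurable_snd.comp measurable_snd))))
  have e3 : ∀ n k, MeasurableSet {p : Om a | p.2.2.2 n = k} := fun n k =>
    (measurableSet_singleton k).preimage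
      ((measurable_pi_apply n).comp (measurable_snd.comp (measurable_snd.comp measurable_snd)))
  have e4 : ∀ (i : ℕ) (u : Fin (a i) → ℕ) (b : Bool), MeasurableSet {p : Om a | p.1 i u = b} := fun i u b =>
    (measurableSet_singleton b).preimage
      ((measurable_pi_apply u).comp ((measurable_pi_apply i).comp measurable_fst))
  have imp : ∀ (P Q : Om a → Prop), MeasurableSet {p | P p} → MeasurableSet {p | Q p} →
      MeasurableSet {p | P p → Q p} := by
    intro P Q hP hQ
    have : {p : Om a | P p → Q p} = {p | P p}ᶜ ∪ {p | Q p} := by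
      ext p
      simp only [mem_setOf_eq, mem_union, mem_compl_iff]
      tauto
    rw [this]
    exact hP.compl.union hQ
  have all : ∀ {ι : Type} [Countable ι] (P : ι → Om a → Prop), (∀ i, MeasurableSet {p | P i p}) →
      MeasurableSet {p | ∀ i, P i p} := by
    intro ι _ P hP
    have : {p : Om a | ∀ i, P i p} = ⋂ i, {p | P i p} := by
      ext p
      simp
    rw [this]
    exact MeasurableSet.iInter hP
  have cst : ∀ (q : Prop), MeasurableSet {p : Om a | q} := fun q => MeasurableSet.const q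
  have h1 : MeasurableSet {p : Om a | p.1 ∈ B} := hB.preimage measurable_fst
  have h2 : MeasurableSet {p : Om a | ∀ n m k, p.2.2.1 n m = k → p.2.1 n k = m} :=
    all _ fun n => all _ fun m => all _ fun k => imp _ _ (e2 n m k) (e1 n k m)
  have h3 : MeasurableSet {p : Om a | ∀ n m k, p.2.1 n m = k → p.2.2.1 n k = m} :=
    all _ fun n => all _ fun m => all _ fun k => imp _ _ (e1 n m k) (e2 n k m)
  have h4 : MeasurableSet {p : Om a | ∀ n i, i < n → ∀ (v u : Fin (a i) → ℕ) (k : ℕ),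
      (∀ t, p.2.1 n (v t) = u t) → p.2.2.2 n = k → p.1 i u = R n k i v} :=
    all _ fun n => all _ fun i => imp _ _ (cst _) (all _ fun v => all _ fun u => all _ fun k =>
      imp _ _ (all _ fun t => e1 n (v t) (u t)) (imp _ _ (e3 n k) (e4 i u _)))
  have h5 : MeasurableSet {p : Om a | ∀ n k, p.2.2.2 n = k → M n k} :=
    all _ fun n => all _ fun k => imp _ _ (e3 n k) (cst _)
  exact h1.inter (h2.inter (h3.inter (h4.inter h5)))

/-- the isomorphism given by a code -/
lemma liso_Y {a : ℕ → ℕ} {B : Set (RS a)} {R : ℕ → ℕ → RS a} {M : ℕ → ℕ → Prop} {p : Om a}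
    (hp : p ∈ Yset B R M) (n : ℕ) : ∃ σ, LIso n (R n (p.2.2.2 n)) p.1 σ := by
  obtain ⟨-, h2, h3, h4, -⟩ := hp
  refine ⟨⟨p.2.1 n, p.2.2.1 n, fun m => h3 n m _ rfl, fun m => h2 n m _ rfl⟩, fun i hi v => ?_⟩
  exact h4 n i hi v _ _ (fun t => rfl) rfl

theorem s_CTH (hR : S_REP) : S_CTH := by
  intro a B hB hcell
  rcases B.eq_empty_or_nonempty with hE | ⟨x₀, hx₀⟩
  · subst hE
    exact Or.inr ⟨∅, countable_empty, empty_subset _, fun x hx => absurd hx (notMem_empty x)⟩
  choose R0 hR0 hR1 using hR a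
  have hne : ∀ n, (R0 n).Nonempty := by
    intro n
    obtain ⟨y, hy, -⟩ := hR1 n x₀ (hcell x₀ hx₀ n)
    exact ⟨y, hy⟩
  choose R hRr using fun n => (hR0 n).exists_eq_range (hne n)
  set M : ℕ → ℕ → Prop := fun n k => ∀ j, j < k → ¬ ∃ σ, LIso n (R n j) (R n k) σ with hM
  -- surjectivity
  have hsurj : ∀ x ∈ B, ∃ p ∈ Yset B R M, p.1 = x := by
    classical
    intro x hx
    have h1 : ∀ n, ∃ k, ∃ σ, LIso n (R n k) x σ := by
      intro n
      obtain ⟨y, hy, σ, hσ⟩ := hR1 n x (hcell x hx n)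
      rw [hRr n] at hy
      obtain ⟨k, rfl⟩ := hy
      exact ⟨k, σ, hσ⟩
    have h2 : ∀ n, ∃ k, (∃ σ, LIso n (R n k) x σ) ∧ M n k := by
      intro n
      refine ⟨Nat.find (h1 n), Nat.find_spec (h1 n), fun j hj => ?_⟩
      rintro ⟨σ, hσ⟩
      obtain ⟨τ, hτ⟩ := Nat.find_spec (h1 n)
      exact Nat.find_min (h1 n) hj ⟨τ * σ, liso_trans hσ hτ⟩
    choose k h3 h4 using h2
    choose σ h5 using h3
    refine ⟨(x, fun n => σ n, fun n => (σ n).symm, k), ⟨hx, ?_, ?_, ?_, ?_⟩, rfl⟩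
    · intro n m j hj
      show σ n j = m
      have hj' : (σ n).symm m = j := hj
      rw [← hj', Equiv.apply_symm_apply]
    · intro n m j hj
      show (σ n).symm j = m
      have hj' : σ n m = j := hj
      rw [← hj', Equiv.symm_apply_apply]
    · intro n i hi v u j hu hj
      have hj' : k n = j := hj
      have hu' : ∀ t, σ n (v t) = u t := hu
      have h6 := h5 n i hi v
      subst hj'
      have : u = ⇑(σ n) ∘ v := funext fun t => (hu' t).symm
      rw [this]
      exact h6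
    · intro n j hj
      have hj' : k n = j := hj
      rw [← hj']
      exact h4 n
  by_cases hc : (⋃ _ : Unit, Set.range fun y : Yset B R M => y.1.2.2.2).Countable
  · right
    have hc' : (Set.range fun y : Yset B R M => y.1.2.2.2).Countable := by
      rwa [iUnion_const] at hc
    have hch : ∀ k : (Set.range fun y : Yset B R M => y.1.2.2.2), ∃ y : Yset B R M, y.1.2.2.2 = k.1 :=
      fun k => k.2
    choose ch hch' using hch
    have : Countable (Set.range fun y : Yset B R M => y.1.2.2.2) := hc'.to_subtype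
    refine ⟨Set.range fun k => (ch k).1.1, countable_range _, ?_, ?_⟩
    · rintro _ ⟨k, rfl⟩
      exact (ch k).2.1
    · intro x hx
      obtain ⟨p, hp, rfl⟩ := hsurj x hx
      set k : (Set.range fun y : Yset B R M => y.1.2.2.2) := ⟨p.2.2.2, ⟨⟨p, hp⟩, rfl⟩⟩ with hk
      refine ⟨(ch k).1.1, ⟨k, rfl⟩, fun n => ?_⟩
      obtain ⟨σ, hσ⟩ := liso_Y hp n
      obtain ⟨τ, hτ⟩ := liso_Y (ch k).2 n
      have e : (ch k).1.2.2.2 = p.2.2.2 := hch' k
      rw [e] at hτ
      exact ⟨τ * σ⁻¹, liso_trans (liso_symm hσ) hτ⟩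
  · left
    have hstd : StandardBorelSpace (Yset B R M) := (meas_Yset hB R M).standardBorel
    have hE : ∀ y y' : Yset B R M, RIso y.1.1 y'.1.1 → ∀ i : Unit, ∃ j : Unit,
        (fun (_ : Unit) (y : Yset B R M) => y.1.2.2.2) i y =
          (fun (_ : Unit) (y : Yset B R M) => y.1.2.2.2) j y' := by
      intro y y' hyy' _
      refine ⟨(), ?_⟩
      funext n
      obtain ⟨σ, hσ⟩ := liso_Y y.2 n
      obtain ⟨τ, hτ⟩ := liso_Y y'.2 n
      obtain ⟨ρ, hρ⟩ := liso_of_riso (n := n) hyy'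
      have k1 : LIso n (R n (y.1.2.2.2 n)) (R n (y'.1.2.2.2 n)) (τ⁻¹ * (ρ * σ)) :=
        liso_trans (liso_trans hσ hρ) (liso_symm hτ)
      rcases lt_trichotomy (y.1.2.2.2 n) (y'.1.2.2.2 n) with h3 | h3 | h3
      · exact absurd ⟨_, k1⟩ (y'.2.2.2.2.2 n _ rfl _ h3)
      · exact h3
      · exact absurd ⟨_, liso_symm k1⟩ (y.2.2.2.2.2 n _ rfl _ h3)
    obtain ⟨h, h1, h2⟩ := Pool.Agent.H565R2.FO2.perfect_of_uncountable
      (Y := Yset B R M) (X := RS a) (Z := ℕ → ℕ) (ι := Unit)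
      (fun y => y.1.1) (measurable_fst.comp measurable_subtype_coe)
      (fun _ y => y.1.2.2.2)
      (fun _ => (measurable_snd.comp (measurable_snd.comp measurable_snd)).comp measurable_subtype_coe)
      (fun y y' => RIso y.1.1 y'.1.1) hE hc
    refine ⟨fun c => (h c).1.1, h1, fun c => (h c).2.1, fun c d hcd => ?_⟩
    by_contra hne
    exact h2 c d hne hcd

end Pool.Agent.L7h29.UA
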