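import Pool.Agent.L7h66.UA.Stm

/-!
Project UA (helper66), part `SYS`: the models on the sets `A c` of a system.
-/

set_option autoImplicit false

namespace Pool.Agent.L7h29.UA

open Set Function
open Pool.Agent.L7h66.UA

section

variable {T : Tower} {I' : Type} (γ : ℕ → PM T) (q : I' → PM T) (P₀ : Set ℕ) (c : ℕ → Bool)

/-- the points of `P₀` -/
def il (v : P₀) : AcS T γ q P₀ c := ⟨Sum.inl v, fun _ _ h _ => by cases h⟩

/-- the points of the component of `γ k`, copy `0` -/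
def i0 (k : ℕ) (u : Cp T (γ k).ψ (γ k).w) : AcS T γ q P₀ c :=
  ⟨Sum.inr ⟨(Sum.inl k, 0), u⟩, fun k' t h _ => by
    have h1 : (some ((Sum.inl k : ℕ ⊕ I'), 0) : Option ((ℕ ⊕ I') × ℕ)) = some (Sum.inl k', t) := h
    have h2 := congrArg Prod.snd (Option.some.inj h1)
    have h3 : 0 = t := h2
    omega⟩

/-- the points of the component of `q i`, copy `t` -/
def iq (i : I') (t : ℕ) (u : Cp T (q i).ψ (q i).w) : AcS T γ q P₀ c :=
  ⟨Sum.inr ⟨(Sum.inr i, t), u⟩, fun k' t' h _ => by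
    have h1 : (some ((Sum.inr i : ℕ ⊕ I'), t) : Option ((ℕ ⊕ I') × ℕ)) = some (Sum.inl k', t') := h
    have h2 := congrArg Prod.fst (Option.some.inj h1)
    cases h2⟩

end

instance instCountableWS {T : Tower} {I : Type} [Countable I] (pm : I → PM T) (P₀ : Set ℕ) :
    Countable (WS T pm P₀) := by
  unfold WS
  infer_instance

theorem s_SYS (hB : S_BLD) : S_SYS := by
  intro T I' _ γ q P₀ hSat hden c
  refine hB T (AcS T γ q P₀ c) (Option ((ℕ ⊕ I') × ℕ))
    (fun w => pcS T (Sum.elim γ q) P₀ w.1) (fun n w => alS T (Sum.elim γ q) P₀ n w.1) ?_ ?_ ?_ ?_ ?_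
  · -- injectivity
    rintro n ⟨u, hu⟩ ⟨w, hw⟩ h1 h2
    apply Subtype.ext
    show u = w
    change pcS T (Sum.elim γ q) P₀ u = pcS T (Sum.elim γ q) P₀ w at h1
    change alS T (Sum.elim γ q) P₀ n u = alS T (Sum.elim γ q) P₀ n w at h2
    clear hu hw
    rcases u with u | ⟨j, u⟩ <;> rcases w with w | ⟨j', w⟩
    · congr 1
      exact Subtype.ext h2
    · exact absurd h1 (by simp [pcS])
    · exact absurd h1 (by simp [pcS])
    · have h3 : j = j' := Option.some.inj h1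
      subst h3
      have h4 : (Sum.elim γ q j.1).ψ n u.1 = (Sum.elim γ q j.1).ψ n w.1 := h2
      have h5 := ((Sum.elim γ q j.1).ψ n).injective h4
      have h6 : u = w := Subtype.ext h5
      rw [h6]
  · -- atoms
    rintro n ⟨w, hw⟩ h1 v hv
    change alS T (Sum.elim γ q) P₀ n w ∉ T.D n at h1
    change v ∈ T.B n (alS T (Sum.elim γ q) P₀ n w) at hv
    rcases w with w | ⟨j, w⟩
    · have hv' : v ∈ T.B n w.1 := hv
      have h1' : w.1 ∉ T.D n := h1
      have hvP : v ∈ P₀ := by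
        by_cases h2 : ∃ m, w.1 ∈ T.D m
        · obtain ⟨m, hm⟩ := h2
          have hnm : n ≤ m := by
            by_contra hc
            exact h1' (T.D_le (by omega) hm)
          exact hSat.1 m (T.B_D_le hnm h1' hm hv')
        · push Not at h2
          exact hSat.2 w.1 w.2 h2 n hv'
      exact ⟨il γ q P₀ c ⟨v, hvP⟩, rfl, rfl⟩
    · have hcoh := (Sum.elim γ q j.1).coh
      have hv' : v ∈ T.B n ((Sum.elim γ q j.1).ψ n w.1) := hv
      have h3 : ((Sum.elim γ q j.1).ψ n).symm v ∈ Cp T (Sum.elim γ q j.1).ψ w.1 := by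
        refine ⟨n, ?_⟩
        rw [Equiv.apply_symm_apply]
        exact hv'
      have h4 := hcoh.cp_trans (Sum.elim γ q j.1).hw w.2 h3
      refine ⟨⟨Sum.inr ⟨j, ⟨_, h4⟩⟩, fun k t h => hw k t h⟩, rfl, ?_⟩
      show (Sum.elim γ q j.1).ψ n (((Sum.elim γ q j.1).ψ n).symm v) = v
      exact Equiv.apply_symm_apply _ _
  · -- coherence
    intro n p
    rcases p with _ | j
    · refine ⟨1, (T.S n).one_mem, ?_⟩
      rintro ⟨w, hw⟩ h1
      change pcS T (Sum.elim γ q) P₀ w = none at h1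
      rcases w with w | w
      · rfl
      · exact absurd h1 (by simp [pcS])
    · obtain ⟨s, hs, h2⟩ := (Sum.elim γ q j.1).coh n
      refine ⟨s, hs, ?_⟩
      rintro ⟨w, hw⟩ h1
      change pcS T (Sum.elim γ q) P₀ w = some j at h1
      rcases w with w | ⟨j', w⟩
      · exact absurd h1 (by simp [pcS])
      · have h3 : j' = j := Option.some.inj h1
        subst h3
        exact h2 w.1
  · -- algebraic points
    intro n d hd
    refine ⟨il γ q P₀ c ⟨d, hSat.1 n hd⟩, rfl, ?_⟩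
    rintro ⟨w, hw⟩ h1
    change alS T (Sum.elim γ q) P₀ n w = d at h1
    apply Subtype.ext
    rcases w with w | ⟨j, w⟩
    · show Sum.inl w = Sum.inl _
      congr 1
      exact Subtype.ext h1
    · exfalso
      have h2 : (Sum.elim γ q j.1).ψ n w.1 = d := h1
      refine (Sum.elim γ q j.1).coh.cp_not (Sum.elim γ q j.1).hw w.2 ⟨n, ?_⟩
      rw [h2]
      exact hd
  · -- density
    intro n v hv
    rcases hden n v hv with h | h | ⟨k, h⟩ | ⟨i, u, hu, s, hs, h⟩
    · refine (h.mono ?_).of_image (fun w : AcS T γ q P₀ c => alS T (Sum.elim γ q) P₀ n w.1)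
      rintro d ⟨⟨m, hm⟩, s, hs, hd⟩
      exact ⟨il γ q P₀ c ⟨d, hSat.1 m hm⟩, ⟨s, hs, hd⟩, rfl⟩
    · refine (h.mono ?_).of_image (fun w : AcS T γ q P₀ c =>
        Sum.elim (fun _ => 0) (fun z => Sum.elim (fun k : ℕ => k) (fun _ => 0) z.1.1) w.1)
      rintro k ⟨u, hu, s, hs, h1⟩
      exact ⟨i0 γ q P₀ c k ⟨u, hu⟩, ⟨s, hs, h1⟩, rfl⟩
    · refine (h.mono ?_).of_image (fun w : AcS T γ q P₀ c =>
        Sum.elim (fun _ => 0) (fun z => z.2.1) w.1)
      rintro u ⟨hu, s, hs, h1⟩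
      exact ⟨i0 γ q P₀ c k ⟨u, hu⟩, ⟨s, hs, h1⟩, rfl⟩
    · refine ((infinite_univ (α := ℕ)).mono ?_).of_image (fun w : AcS T γ q P₀ c =>
        Sum.elim (fun _ => 0) (fun z => z.1.2) w.1)
      rintro t -
      exact ⟨iq γ q P₀ c i t ⟨u, hu⟩, ⟨s, hs, h⟩, rfl⟩

end Pool.Agent.L7h29.UA
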